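import Mathlib
import Pool.Agent.Lib.MP_1dd8f3_al.Lower

namespace Pool.Agent.Results.MP_1dd8f3_al.EmbDimFive

open Pool.Agent.Lib.MP_1dd8f3_al in
theorem result (k : Type*) [Field k] :
    IsGreatest {ρ : Cardinal | ∃ (Γ : AddSubmonoid ℕ) (g : Fin 5 → ℕ) (F : ℤ),
      (Γ : Set ℕ)ᶜ.Finite ∧
      StrictMono g ∧ AddSubmonoid.closure (Set.range g) = Γ ∧
      (∀ i, g i ∉ AddSubmonoid.closure (g '' {i}ᶜ)) ∧
      IsGreatest (Nat.cast '' (Γ : Set ℕ) : Set ℤ)ᶜ F ∧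
      (∀ x : ℤ, x ∉ (Nat.cast '' (Γ : Set ℕ) : Set ℤ) → F - x ∈ (Nat.cast '' (Γ : Set ℕ) : Set ℤ)) ∧
      ρ = Submodule.spanRank (RingHom.ker
        (MvPolynomial.aeval (fun i => (Polynomial.X : Polynomial k) ^ g i) :
          MvPolynomial (Fin 5) k →ₐ[k] Polynomial k))} 13 := by
  constructor
  · refine ⟨AddSubmonoid.closure (Set.range g0), g0, 77, ?_, by decide, rfl, g0_min,
      ⟨fun h => mm_77 (mm_iff.mp h), fun x hx => ?_⟩,
      fun x hx => mm_iff.mpr (mm_sym x fun h => hx (mm_iff.mpr h)),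
      le_antisymm (lower k) (upper k (by decide) mm_77 mm_sym)⟩
    · refine (Set.finite_Iic 77).subset fun n hn => ?_
      by_contra h
      have h1 : 77 < n := not_le.mp h
      obtain ⟨u, hu⟩ := mm_big (s := n) (by omega)
      exact hn (mem_cl.mpr ⟨u, by exact_mod_cast hu⟩)
    · by_contra h
      exact hx (mm_iff.mpr (mm_big (not_le.mp h)))
  · rintro ρ ⟨Γ, g, F, -, -, rfl, h1, h2, h3, rfl⟩
    refine upper k (fun i => Nat.pos_of_ne_zero fun h => h1 i ?_) (fun h => h2.1 (mm_iff.mpr h))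
      fun s hs => mm_iff.mp (h3 s fun h => hs (mm_iff.mp h))
    rw [h]
    exact zero_mem _

end Pool.Agent.Results.MP_1dd8f3_al.EmbDimFive
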