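import Mathlib
import Pool.Agent.Lib.MP_1dd8f3_al.Inf2

namespace Pool.Agent.Results.MP_1dd8f3_al.Unbounded

open Pool.Agent.Lib.MP_1dd8f3_al.Inf in
theorem result (k : Type*) [Field k] (e : ℕ) (he : 8 ≤ e) :
    sSup {ρ : ℕ∞ | ∃ (Γ : AddSubmonoid ℕ) (g : Fin e → ℕ) (F : ℤ),
      (Γ : Set ℕ)ᶜ.Finite ∧
      StrictMono g ∧ AddSubmonoid.closure (Set.range g) = Γ ∧
      (∀ i, g i ∉ AddSubmonoid.closure (g '' {i}ᶜ)) ∧
      IsGreatest (Nat.cast '' (Γ : Set ℕ) : Set ℤ)ᶜ F ∧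
      (∀ x : ℤ, x ∉ (Nat.cast '' (Γ : Set ℕ) : Set ℤ) → F - x ∈ (Nat.cast '' (Γ : Set ℕ) : Set ℤ)) ∧
      ρ = (Submodule.spanFinrank (RingHom.ker
        (MvPolynomial.aeval (fun i => (Polynomial.X : Polynomial k) ^ g i) :
          MvPolynomial (Fin e) k →ₐ[k] Polynomial k)) : ℕ)} = ⊤ := by
  rw [sSup_eq_top]
  intro b hb
  lift b to ℕ using hb.ne
  obtain ⟨g, F, s, A, h1, h2, h3, h4, h5, h6⟩ := good he (b + 1)
  have m1 : ∀ x : ℤ, x ∈ (Nat.cast '' (AddSubmonoid.closure (Set.range g) : Set ℕ) : Set ℤ) ↔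
      MM g x := by
    intro x
    constructor
    · rintro ⟨n, hn, rfl⟩
      obtain ⟨a, rfl⟩ := AddSubmonoid.mem_closure_range_iff_of_fintype.mp hn
      exact ⟨a, by simp [wt]⟩
    · rintro ⟨u, rfl⟩
      exact ⟨_, AddSubmonoid.mem_closure_range_iff_of_fintype.mpr ⟨u, by simp [wt]⟩, rfl⟩
  have m2 : ∀ x : ℤ, ¬ MM g x → x ≤ F := by
    intro x hx
    obtain ⟨u, hu⟩ := h4 x hx
    omega
  refine ⟨_, ⟨AddSubmonoid.closure (Set.range g), g, F, ?_, h1, rfl, fun i hi => ?_,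
    ⟨fun h => h3 ((m1 _).mp h), fun x hx => m2 x fun h => hx ((m1 _).mpr h)⟩,
    fun x hx => (m1 _).mpr (h4 x fun h => hx ((m1 _).mpr h)), rfl⟩, ?_⟩
  · refine (Set.finite_Iic F.toNat).subset fun n hn => ?_
    have := m2 n fun h => by
      obtain ⟨n', h7, h8⟩ := (m1 _).mpr h
      exact hn (Nat.cast_injective h8 ▸ h7)
    change n ≤ _
    omega
  · have : ∀ n ∈ AddSubmonoid.closure (g '' {i}ᶜ), ∃ u : Fin e → ℕ, u i = 0 ∧ wt g u = n := by
      intro n hn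
      induction hn using AddSubmonoid.closure_induction with
      | mem x hx =>
        obtain ⟨j, hj, rfl⟩ := hx
        exact ⟨Pi.single j 1, Pi.single_eq_of_ne (Ne.symm hj) 1, by simp [wt, Pi.single_apply]⟩
      | zero => exact ⟨0, rfl, by simp [wt]⟩
      | add x y _ _ hx hy =>
        obtain ⟨u, h7, rfl⟩ := hx
        obtain ⟨v, h8, rfl⟩ := hy
        exact ⟨u + v, by simp [h7, h8], wt_add g u v⟩
    obtain ⟨u, h7, h8⟩ := this _ hi
    exact h2 i u h7 h8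
  · have h7 := lower (k := k) s A h5 h6
    rw [Submodule.fg_iff_spanRank_eq_spanFinrank.mpr (IsNoetherian.noetherian _)] at h7
    exact_mod_cast h7

end Pool.Agent.Results.MP_1dd8f3_al.Unbounded
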